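import Mathlib
import Pool.Agent.H592R3.Defs

/-!
Tautologies in disjunctive normal form, and probabilistically checkable proofs whose verifier is a
circuit of small depth.
-/

namespace SmallDepth

open DomAC0

/-- A formula in disjunctive normal form with `M` terms over `n` variables is given by the bits
`u (c, v, b)`: the term `c` contains the literal that says that the variable `v` has the value
`b`. `DnfTrue u α` says that the assignment `α` makes the formula true. -/
def DnfTrue {n M : ℕ} (u : Fin M × Fin n × Bool → Bool) (α : Fin n → Bool) : Prop :=
  ∃ c : Fin M, ∀ v b, u (c, v, b) = true → α v = b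

/-- The formula is a tautology. -/
def Taut {n M : ℕ} (u : Fin M × Fin n × Bool → Bool) : Prop := ∀ α, DnfTrue u α

/-- At most one assignment makes the formula false. -/
def OneFalsifying {n M : ℕ} (u : Fin M × Fin n × Bool → Bool) : Prop :=
  ∀ α β, ¬ DnfTrue u α → ¬ DnfTrue u β → α = β

/-- A verifier of probabilistically checkable proofs about an input `x : J → Bool`. The proof is a
string of `2 ^ q` bits, and the verifier reads `k` of them. The outcome `ω` of its coins has
probability `prob ω`. When it is `ω` and the bits read are `r`, the bits of the address that it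
reads at time `t` are the values of the nodes `addr ω r t i` of the circuit `circ ω r`, and it
accepts if the output of this circuit is `true`. The address read at time `t` depends only on the
bits read earlier (`adaptive`). -/
structure PcpVerifier (J : Type) (k q : ℕ) where
  Ω : Type
  fin : Fintype Ω
  prob : Ω → ℝ
  nonneg : ∀ ω, 0 ≤ prob ω
  total : ∑ ω, prob ω = 1
  circ : Ω → (Fin k → Bool) → Circuit J
  addr : (ω : Ω) → (r : Fin k → Bool) → Fin k → Fin q → J ⊕ Fin (circ ω r).size
  adaptive : ∀ ω r r' t i x, (∀ s, s < t → r s = r' s) →
    (circ ω r).nodeVal x (addr ω r t i) = (circ ω r').nodeVal x (addr ω r' t i)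

namespace PcpVerifier

variable {J : Type} {k q : ℕ}

/-- All circuits have at most `S` gates, and the address bits and the decision have depth at most
`d`. -/
def Bounded (V : PcpVerifier J k q) (d S : ℕ) : Prop :=
  ∀ ω r, (V.circ ω r).size ≤ S ∧ (V.circ ω r).depth ≤ d ∧
    ∀ t i, (V.circ ω r).nodeDepth (V.addr ω r t i) ≤ d

/-- The address that is read at time `t`. -/
noncomputable def address (V : PcpVerifier J k q) (x : J → Bool) (ω : V.Ω) (r : Fin k → Bool)
    (t : Fin k) : Fin q → Bool :=
  fun i => (V.circ ω r).nodeVal x (V.addr ω r t i)

/-- The bits that are read in the proof `π` on the input `x` when the coins are `ω` are `r`. -/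
def Reads (V : PcpVerifier J k q) (x : J → Bool) (π : (Fin q → Bool) → Bool) (ω : V.Ω)
    (r : Fin k → Bool) : Prop :=
  ∀ t, r t = π (V.address x ω r t)

open Classical in
/-- The probability that the verifier accepts the input `x` and the proof `π`. -/
noncomputable def acc (V : PcpVerifier J k q) (x : J → Bool) (π : (Fin q → Bool) → Bool) : ℝ :=
  letI := V.fin
  ∑ ω, if ∃ r, V.Reads x π ω r ∧ (V.circ ω r).eval x = true then V.prob ω else 0

end PcpVerifier

end SmallDepth
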