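import Mathlib
import Pool.Agent.H592R3.MapIn

/-!
The circuit that checks whether the outputs of a circuit with several outputs have given values.
-/

namespace H592R3

open Finset DomAC0 H568R2

section Chk
variable {J : Type}

/-- The embedding of the nodes. -/
def emb (C : Circuit J) (m : ℕ) : J ⊕ Fin C.size → J ⊕ Fin (C.size + m + 1) :=
  Sum.map id (Fin.castLE (by omega))

open Classical in
/-- The wires of the checking circuit. -/
noncomputable def cpreds (C : Circuit J) {m : ℕ} (o : Fin m → J ⊕ Fin C.size) (y : Fin m → Bool)
    (g : Fin (C.size + m + 1)) : Finset (J ⊕ Fin (C.size + m + 1)) :=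
  if h : g.val < C.size then (C.preds ⟨g.val, h⟩).image (emb C m)
  else if h' : g.val < C.size + m then {emb C m (o ⟨g.val - C.size, by omega⟩)}
  else univ.image (fun i : Fin m => if y i = true then emb C m (o i)
    else Sum.inr ⟨C.size + i.val, by omega⟩)

/-- The kinds of the gates of the checking circuit. -/
def ckind (C : Circuit J) (m : ℕ) (g : Fin (C.size + m + 1)) : GateKind :=
  if h : g.val < C.size then C.kind ⟨g.val, h⟩
  else if g.val < C.size + m then GateKind.not else GateKind.and

lemma emb_inr {C : Circuit J} {m : ℕ} {v : J ⊕ Fin C.size} {h : Fin (C.size + m + 1)}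
    (hv : emb C m v = Sum.inr h) : ∃ h' : Fin C.size, v = Sum.inr h' ∧ h.val = h'.val := by
  cases v with
  | inl j => simp [emb] at hv
  | inr h' =>
    refine ⟨h', rfl, ?_⟩
    simp only [emb, Sum.map_inr, Sum.inr.injEq] at hv
    rw [← hv]
    rfl

/-- The embedding of the gates. -/
def lft (C : Circuit J) (m : ℕ) (g : Fin C.size) : Fin (C.size + m + 1) :=
  Fin.castLE (by omega) g

/-- The NOT gates. -/
def ngate (C : Circuit J) (m : ℕ) (i : Fin m) : Fin (C.size + m + 1) :=
  ⟨C.size + i.val, by omega⟩

open Classical in
lemma cpreds_lft (C : Circuit J) {m : ℕ} (o : Fin m → J ⊕ Fin C.size) (y : Fin m → Bool)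
    (g : Fin C.size) : cpreds C o y (lft C m g) = (C.preds g).image (emb C m) := by
  unfold cpreds
  have h1 : (lft C m g).val < C.size := g.2
  rw [dif_pos h1]
  rfl

lemma cpreds_ngate (C : Circuit J) {m : ℕ} (o : Fin m → J ⊕ Fin C.size) (y : Fin m → Bool)
    (i : Fin m) : cpreds C o y (ngate C m i) = {emb C m (o i)} := by
  unfold cpreds
  have h1 : ¬ (ngate C m i).val < C.size := by
    show ¬ C.size + i.val < C.size
    omega
  have h2 : (ngate C m i).val < C.size + m := by
    show C.size + i.val < C.size + m
    omega
  rw [dif_neg h1, dif_pos h2]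
  congr 3
  apply Fin.ext
  show C.size + i.val - C.size = i.val
  omega

open Classical in
lemma cpreds_last (C : Circuit J) {m : ℕ} (o : Fin m → J ⊕ Fin C.size) (y : Fin m → Bool) :
    cpreds C o y (Fin.last _) = univ.image (fun i : Fin m => if y i = true then emb C m (o i)
    else Sum.inr (ngate C m i)) := by
  unfold cpreds
  have h1 : ¬ (Fin.last (C.size + m)).val < C.size := by
    show ¬ C.size + m < C.size
    omega
  have h2 : ¬ (Fin.last (C.size + m)).val < C.size + m := by
    show ¬ C.size + m < C.size + m
    omega
  rw [dif_neg h1, dif_neg h2]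
  rfl

lemma ckind_lft (C : Circuit J) (m : ℕ) (g : Fin C.size) : ckind C m (lft C m g) = C.kind g := by
  unfold ckind
  have h1 : (lft C m g).val < C.size := g.2
  rw [dif_pos h1]
  rfl

lemma ckind_ngate (C : Circuit J) (m : ℕ) (i : Fin m) :
    ckind C m (ngate C m i) = GateKind.not := by
  unfold ckind
  have h1 : ¬ (ngate C m i).val < C.size := by
    show ¬ C.size + i.val < C.size
    omega
  have h2 : (ngate C m i).val < C.size + m := by
    show C.size + i.val < C.size + m
    omega
  rw [dif_neg h1, if_pos h2]

lemma ckind_last (C : Circuit J) (m : ℕ) : ckind C m (Fin.last _) = GateKind.and := by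
  unfold ckind
  have h1 : ¬ (Fin.last (C.size + m)).val < C.size := by
    show ¬ C.size + m < C.size
    omega
  have h2 : ¬ (Fin.last (C.size + m)).val < C.size + m := by
    show ¬ C.size + m < C.size + m
    omega
  rw [dif_neg h1, if_neg h2]

/-- The checking circuit. -/
noncomputable abbrev mchk (C : Circuit J) {m : ℕ} (o : Fin m → J ⊕ Fin C.size) (y : Fin m → Bool) :
    Circuit J where
  size := C.size + m + 1
  kind := ckind C m
  preds := cpreds C o y
  acyclic := by
    classical
    intro g h hh
    unfold cpreds at hh
    split_ifs at hh with h1 h2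
    · obtain ⟨v, hv, he⟩ := Finset.mem_image.1 hh
      obtain ⟨h', rfl, h3⟩ := emb_inr he
      have := C.acyclic _ _ hv
      show h.val < g.val
      rw [h3]
      exact this
    · rw [Finset.mem_singleton] at hh
      obtain ⟨h', h3, h4⟩ := emb_inr hh.symm
      show h.val < g.val
      have := h'.2
      omega
    · obtain ⟨i, _, he⟩ := Finset.mem_image.1 hh
      split_ifs at he with hy
      · obtain ⟨h', h3, h4⟩ := emb_inr he
        show h.val < g.val
        have := h'.2
        omega
      · rw [Sum.inr.injEq] at he
        show h.val < g.val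
        rw [← he]
        have := i.2
        show C.size + i.val < g.val
        omega
  unary := by
    classical
    intro g hg
    unfold ckind at hg
    unfold cpreds
    split_ifs at hg with h1 h2
    · rw [dif_pos h1]
      obtain ⟨v, hv⟩ := Finset.card_eq_one.1 (C.unary _ hg)
      rw [hv, Finset.image_singleton, Finset.card_singleton]
    · rw [dif_neg h1, dif_pos h2, Finset.card_singleton]
  output := Sum.inr (Fin.last _)

variable (C : Circuit J) {m : ℕ} (o : Fin m → J ⊕ Fin C.size) (y : Fin m → Bool)

lemma mchk_gateVal (x : J → Bool) : ∀ (k : ℕ) (g : Fin C.size), g.val = k →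
    (mchk C o y).gateVal x (lft C m g) = C.gateVal x g := by
  classical
  intro k
  induction k using Nat.strong_induction_on with
  | _ k ih =>
    intro g hg
    rw [gateVal_eq (mchk C o y) x _, gateVal_eq C x g]
    have hnode : ∀ v ∈ C.preds g, (mchk C o y).nodeVal x (emb C m v) = C.nodeVal x v := by
      intro v hv
      cases v with
      | inl j => rfl
      | inr h =>
        have hlt := C.acyclic g h hv
        exact ih h.val (by rw [← hg]; exact hlt) h rfl
    have hp : (mchk C o y).preds (lft C m g) = (C.preds g).image (emb C m) := by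
      convert cpreds_lft C o y g
    have hk : (mchk C o y).kind (lft C m g) = C.kind g := ckind_lft C m g
    unfold gfun
    rw [hk, hp]
    cases C.kind g with
    | and =>
      simp only [Finset.mem_toList]
      rw [decide_eq_decide]
      constructor
      · intro h v hv
        exact (hnode v hv).symm.trans (h _ (Finset.mem_image_of_mem _ hv))
      · intro h v hv
        obtain ⟨w, hw, rfl⟩ := Finset.mem_image.1 hv
        exact (hnode w hw).trans (h w hw)
    | or =>
      simp only [Finset.mem_toList]
      rw [decide_eq_decide]
      constructor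
      · rintro ⟨v, hv, h⟩
        obtain ⟨w, hw, rfl⟩ := Finset.mem_image.1 hv
        exact ⟨w, hw, (hnode w hw).symm.trans h⟩
      · rintro ⟨v, hv, h⟩
        exact ⟨_, Finset.mem_image_of_mem _ hv, (hnode v hv).trans h⟩
    | not =>
      simp only [Finset.mem_toList]
      rw [decide_eq_decide]
      constructor
      · intro h v hv
        exact (hnode v hv).symm.trans (h _ (Finset.mem_image_of_mem _ hv))
      · intro h v hv
        obtain ⟨w, hw, rfl⟩ := Finset.mem_image.1 hv
        exact (hnode w hw).trans (h w hw)

lemma mchk_nodeVal (x : J → Bool) (v : J ⊕ Fin C.size) :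
    (mchk C o y).nodeVal x (emb C m v) = C.nodeVal x v := by
  cases v with
  | inl j => rfl
  | inr g => exact mchk_gateVal C o y x g.val g rfl

lemma mchk_not (x : J → Bool) (i : Fin m) :
    (mchk C o y).gateVal x (ngate C m i) = !C.nodeVal x (o i) := by
  classical
  rw [gateVal_eq]
  have hp : (mchk C o y).preds (ngate C m i) = {emb C m (o i)} := cpreds_ngate C o y i
  have hk : (mchk C o y).kind (ngate C m i) = GateKind.not := ckind_ngate C m i
  unfold gfun
  rw [hk, hp]
  simp only [Finset.mem_toList, Finset.mem_singleton, forall_eq]
  rw [← mchk_nodeVal C o y x (o i)]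
  cases (mchk C o y).nodeVal x (emb C m (o i)) <;> simp

/-- The checking circuit accepts when all outputs have the given values. -/
theorem mchk_eval (x : J → Bool) :
    (mchk C o y).eval x = true ↔ ∀ i, C.nodeVal x (o i) = y i := by
  classical
  have hev : (mchk C o y).eval x = (mchk C o y).gateVal x (Fin.last (C.size + m)) := rfl
  rw [hev, gateVal_eq]
  have hp : (mchk C o y).preds (Fin.last (C.size + m)) =
      univ.image (fun i : Fin m => if y i = true then emb C m (o i)
    else Sum.inr (ngate C m i)) := by
    convert cpreds_last C o y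
  have hk : (mchk C o y).kind (Fin.last (C.size + m)) = GateKind.and := ckind_last C m
  unfold gfun
  rw [hk, hp]
  simp only [Finset.mem_toList, decide_eq_true_eq]
  constructor
  · intro h i
    have h3 := h _ (Finset.mem_image_of_mem _ (Finset.mem_univ i))
    by_cases hy : y i = true
    · rw [if_pos hy] at h3
      rw [mchk_nodeVal] at h3
      rw [h3, hy]
    · rw [if_neg hy] at h3
      have h4 : (mchk C o y).gateVal x (ngate C m i) = true := h3
      rw [mchk_not] at h4
      rw [Bool.not_eq_true] at hy
      rw [hy]
      simpa using h4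
  · intro h v hv
    obtain ⟨i, _, rfl⟩ := Finset.mem_image.1 hv
    by_cases hy : y i = true
    · rw [if_pos hy, mchk_nodeVal, h i, hy]
    · rw [if_neg hy]
      have h4 : (mchk C o y).gateVal x (ngate C m i) = true := by
        rw [mchk_not, h i]
        rw [Bool.not_eq_true] at hy
        rw [hy]
        rfl
      exact h4

lemma mchk_gateDepth : ∀ (k : ℕ) (g : Fin C.size), g.val = k →
    (mchk C o y).gateDepth (lft C m g) ≤ C.gateDepth g := by
  classical
  intro k
  induction k using Nat.strong_induction_on with
  | _ k ih =>
    intro g hg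
    apply gateDepth_le (mchk C o y) _ (one_le_gateDepth C g)
    intro v hv
    have hp : (mchk C o y).preds (lft C m g) = (C.preds g).image (emb C m) := by
      convert cpreds_lft C o y g
    rw [hp] at hv
    obtain ⟨w, hw, rfl⟩ := Finset.mem_image.1 hv
    have hd := depth_lt C g w hw
    refine lt_of_le_of_lt ?_ hd
    cases w with
    | inl j => exact le_refl _
    | inr h =>
      have hlt := C.acyclic g h hw
      exact ih h.val (by rw [← hg]; exact hlt) h rfl

lemma mchk_nodeDepth (v : J ⊕ Fin C.size) :
    (mchk C o y).nodeDepth (emb C m v) ≤ C.nodeDepth v := by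
  cases v with
  | inl j => exact le_refl _
  | inr g => exact mchk_gateDepth C o y g.val g rfl

theorem mchk_depth {d : ℕ} (hd : ∀ i, C.nodeDepth (o i) ≤ d) : (mchk C o y).depth ≤ d + 2 := by
  classical
  have hev : (mchk C o y).depth = (mchk C o y).gateDepth (Fin.last (C.size + m)) := rfl
  rw [hev]
  apply gateDepth_le (mchk C o y) _ (by omega)
  intro v hv
  have hp : (mchk C o y).preds (Fin.last (C.size + m)) =
      univ.image (fun i : Fin m => if y i = true then emb C m (o i)
    else Sum.inr (ngate C m i)) := by
    convert cpreds_last C o y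
  rw [hp] at hv
  obtain ⟨i, _, rfl⟩ := Finset.mem_image.1 hv
  by_cases hy : y i = true
  · rw [if_pos hy]
    exact lt_of_le_of_lt ((mchk_nodeDepth C o y (o i)).trans (hd i)) (by omega)
  · rw [if_neg hy]
    have h4 : (mchk C o y).gateDepth (ngate C m i) ≤ d + 1 := by
      apply gateDepth_le (mchk C o y) _ (by omega)
      intro v hv
      have hp : (mchk C o y).preds (ngate C m i) = {emb C m (o i)} := cpreds_ngate C o y i
      rw [hp, Finset.mem_singleton] at hv
      subst hv
      exact lt_of_le_of_lt ((mchk_nodeDepth C o y (o i)).trans (hd i)) (by omega)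
    exact lt_of_le_of_lt h4 (by omega)

end Chk

end H592R3
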