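import Mathlib
import Pool.Agent.H592R3.Defs

/-!
Interactive proofs with private coins whose verifier is a circuit of small depth.
-/

namespace SmallDepth

open DomAC0

/-- An interactive proof with private coins about an input `x : J → Bool`, in `k` rounds. In each
round the verifier sends `a` bits and then the prover answers with `b` bits. The outcome `ω` of
the private coins has probability `prob ω`. When it is `ω` and the answers of the prover are `r`,
the bits that the verifier sends in round `t` are the values of the nodes `node ω r t i` of the
circuit `circ ω r`, and the verifier accepts if the output of this circuit is `true`. The message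
of round `t` depends only on the answers in the earlier rounds (`causal`). -/
structure PrivateProof (J : Type) (k a b : ℕ) where
  Ω : Type
  fin : Fintype Ω
  prob : Ω → ℝ
  nonneg : ∀ ω, 0 ≤ prob ω
  total : ∑ ω, prob ω = 1
  circ : Ω → (Fin k → Fin b → Bool) → Circuit J
  node : (ω : Ω) → (r : Fin k → Fin b → Bool) → Fin k → Fin a → J ⊕ Fin (circ ω r).size
  causal : ∀ ω r r' t i x, (∀ s, s < t → r s = r' s) →
    (circ ω r).nodeVal x (node ω r t i) = (circ ω r').nodeVal x (node ω r' t i)

namespace PrivateProof

variable {J : Type} {k a b : ℕ}

/-- All circuits have at most `S` gates, and the message bits and the decision have depth at most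
`d`. -/
def Bounded (V : PrivateProof J k a b) (d S : ℕ) : Prop :=
  ∀ ω r, (V.circ ω r).size ≤ S ∧ (V.circ ω r).depth ≤ d ∧
    ∀ t i, (V.circ ω r).nodeDepth (V.node ω r t i) ≤ d

/-- The messages of the verifier on the input `x` when the coins are `ω` and the answers are
`r`. -/
noncomputable def msg (V : PrivateProof J k a b) (x : J → Bool) (ω : V.Ω)
    (r : Fin k → Fin b → Bool) : Fin k → Fin a → Bool :=
  fun t i => (V.circ ω r).nodeVal x (V.node ω r t i)

/-- The part of the messages `m` that the prover knows when it answers in round `t` (the other
bits are set to `false`). -/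
def seen (m : Fin k → Fin a → Bool) (t : Fin k) : Fin k → Fin a → Bool :=
  fun s i => if s ≤ t then m s i else false

/-- A strategy of the prover: its answer in each round, given the messages up to this round. -/
abbrev Strategy (k a b : ℕ) : Type := Fin k → (Fin k → Fin a → Bool) → Fin b → Bool

/-- The answers `r` are those that the strategy `P` gives on the input `x` when the coins
are `ω`. -/
def Answers (V : PrivateProof J k a b) (x : J → Bool) (P : Strategy k a b) (ω : V.Ω)
    (r : Fin k → Fin b → Bool) : Prop :=
  ∀ t, r t = P t (seen (V.msg x ω r) t)

/-- The answers are determined by the input, the strategy and the coins. -/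
theorem existsUnique_answers (V : PrivateProof J k a b) (x : J → Bool) (P : Strategy k a b)
    (ω : V.Ω) : ∃! r, V.Answers x P ω r := by
  have hmsg : ∀ (r r' : Fin k → Fin b → Bool) (t : Fin k), (∀ s, s < t → r s = r' s) →
      seen (V.msg x ω r) t = seen (V.msg x ω r') t := by
    intro r r' t h
    funext s i
    unfold seen msg
    by_cases hs : s ≤ t
    · rw [if_pos hs, if_pos hs]
      exact V.causal ω r r' s i x (fun s' hs' => h s' (lt_of_lt_of_le hs' hs))
    · rw [if_neg hs, if_neg hs]
  have hstep : ∀ j : ℕ, ∃ r : Fin k → Fin b → Bool, ∀ t : Fin k, t.val < j →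
      r t = P t (seen (V.msg x ω r) t) := by
    intro j
    induction j with
    | zero => exact ⟨fun _ _ => false, fun t ht => absurd ht (Nat.not_lt_zero _)⟩
    | succ j ih =>
      obtain ⟨r, hr⟩ := ih
      refine ⟨fun t => P t (seen (V.msg x ω r) t), fun t ht => ?_⟩
      show P t (seen (V.msg x ω r) t) = P t (seen (V.msg x ω _) t)
      rw [hmsg r (fun t => P t (seen (V.msg x ω r) t)) t]
      intro s hs
      have hst : s.val < t.val := hs
      exact hr s (by omega)
  obtain ⟨r, hr⟩ := hstep k
  refine ⟨r, fun t => hr t t.2, ?_⟩
  intro r' hr'
  have h1 : ∀ (j : ℕ) (t : Fin k), t.val = j → r' t = r t := by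
    intro j
    induction j using Nat.strong_induction_on with
    | _ j ih =>
      intro t ht
      rw [hr' t, hr t t.2, hmsg r' r t]
      intro s hs
      have hst : s.val < t.val := hs
      exact ih s.val (by omega) s rfl
  funext t
  exact h1 t.val t rfl

open Classical in
/-- The probability that the verifier accepts the input `x` when the prover uses the
strategy `P`. -/
noncomputable def acc (V : PrivateProof J k a b) (x : J → Bool) (P : Strategy k a b) : ℝ :=
  letI := V.fin
  ∑ ω, if ∃ r, V.Answers x P ω r ∧ (V.circ ω r).eval x = true then V.prob ω else 0

end PrivateProof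

end SmallDepth
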