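import Mathlib
import Pool.Agent.H592R3.Cnf3
import Pool.Agent.H592R3.Csp3

/-!
Families of circuits one of which separates a formula without models from each of the formulas
with one model.
-/

set_option linter.unusedSectionVars false

namespace H592R3

open Finset DomAC0 H568R2 SmallDepth

section Sep
variable {m n r : ℕ} {J : Type}

open Classical in
lemma sep_pt (hm : 1 ≤ m) (s : Fin m → Fin (r + 1) → Fin m) {N g : ℕ}
    (p : Fin N → ℝ) (hp0 : ∀ i, 0 ≤ p i) (K : Fin N → Fin (2 ^ g) → Circuit J)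
    (σ : ((Fin m × (Fin (r + 1) → Fin n)) → Bool) → (J → Bool))
    (hsep : ∀ X, ¬ Sat s X → ∃ z : Fin N → Fin (2 ^ g), ∀ Y, AtMostOne s Y → Sat s Y →
      (1 : ℝ) / 3 ≤ ∑ i, p i *
        (if (K i (z i)).eval (σ X) ≠ (K i (z i)).eval (σ Y) then (1 : ℝ) else 0))
    (X : (Fin m × (Fin (r + 1) → Fin n)) → Bool) :
    ∑ a : Fin m → Fin n, (1 / 3) * (1 - (if ¬ Uniq s a X then (1 : ℝ) else 0)) ≤
      Mb2.ms s σ (Game.arthur N p (fun i => .merlin g (fun z => .verify (K i z)))) X := by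
  have hms : Mb2.ms s σ (Game.arthur N p (fun i => .merlin g (fun z => .verify (K i z)))) X =
      ∑ i, p i * ⨆ z, Mb2.cntS s σ (K i z) X := rfl
  rw [hms]
  by_cases hex : ∃ a, Uniq s a X
  · obtain ⟨a0, ha0⟩ := hex
    have hsat : ∀ a, Uniq s a X → ¬ Sat s X := by
      intro a hU
      have h4 : plant (vr s a) (∅ : Finset (Fin m)) X = X := by
        funext i
        unfold plant
        simp
      rw [← h4, uniq_sat hU]
      intro h5
      have h6 : (⟨0, by omega⟩ : Fin m) ∈ (univ : Finset (Fin m)) := Finset.mem_univ _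
      rw [← h5] at h6
      simp at h6
    obtain ⟨z, hz⟩ := hsep X (hsat a0 ha0)
    have h1 : ∑ i, p i * Mb2.cntS s σ (K i (z i)) X ≤ ∑ i, p i * ⨆ z, Mb2.cntS s σ (K i z) X := by
      refine Finset.sum_le_sum fun i _ => mul_le_mul_of_nonneg_left ?_ (hp0 i)
      exact Mb2.le_sup (fun z => Mb2.cntS s σ (K i z) X) (z i)
    refine le_trans ?_ h1
    unfold Mb2.cntS
    simp only [Finset.mul_sum]
    rw [Finset.sum_comm]
    refine Finset.sum_le_sum fun a _ => ?_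
    by_cases hU : Uniq s a X
    · simp only [hU, not_true, if_false, sub_zero, mul_one]
      exact hz _ (uniq_atMostOne hU univ) ((uniq_sat hU univ).2 rfl)
    · simp only [hU, not_false_iff, if_true, sub_self, mul_zero]
      refine Finset.sum_nonneg fun i _ => mul_nonneg (hp0 i) ?_
      split_ifs <;> norm_num
  · push Not at hex
    have h1 : ∑ a : Fin m → Fin n, (1 / 3) * (1 - (if ¬ Uniq s a X then (1 : ℝ) else 0)) = 0 := by
      refine Finset.sum_eq_zero fun a _ => ?_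
      rw [if_pos (hex a)]
      norm_num
    rw [h1]
    refine Finset.sum_nonneg fun i _ => mul_nonneg (hp0 i) ?_
    obtain ⟨z, hz⟩ := Mb2.exists_sup (fun z => Mb2.cntS s σ (K i z) X)
    rw [← hz]
    exact Mb2.cntS_nonneg s σ _ X

end Sep

/-- The lower bound for separating families. -/
theorem cnf_sep (ε : ℝ) (hε : 0 < ε) : ∃ C : ℝ, 0 < C ∧ ∀ n d g w M S : ℕ, 2 ≤ n → 1 ≤ d →
    C * (d * Real.log (n + g)) ≤ w → w ≤ n → n * 2 ^ w ≤ M →
    ∀ (N : ℕ) (p : Fin N → ℝ) (K : Fin N → Fin (2 ^ g) → Circuit (Fin M × Fin n × Bool)),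
    (∀ i, 0 ≤ p i) → ∑ i, p i = 1 → (∀ i z, (K i z).depth ≤ d ∧ (K i z).size ≤ S) →
    (∀ x : Fin M × Fin n × Bool → Bool, WidthLe x w → ¬ (∃ α, Models x α) →
      ∃ z : Fin N → Fin (2 ^ g), ∀ y : Fin M × Fin n × Bool → Bool, WidthLe y w →
        (∀ α β, Models y α → Models y β → α = β) → (∃ α, Models y α) →
        (1 : ℝ) / 3 ≤ ∑ i, p i *
          (if (K i (z i)).eval x ≠ (K i (z i)).eval y then (1 : ℝ) else 0)) →
    (2 : ℝ) ^ ((1 - ε) * n) < S := by
  classical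
  obtain ⟨Q, hQ6, _, C, hC, hpar⟩ := params4 ε hε
  refine ⟨C, hC, ?_⟩
  intro n d g w M S hn hd hw hwn hM N p K hp0 hp1 hK hsep
  obtain ⟨b, m', k, hb, hm', hA, hB1', hB2, hgk, hBw, hQn, hexp⟩ := hpar n d g w hn hd hw hwn
  obtain ⟨s, hs, hsexp, hssm⟩ := scopes2 Q m' hQ6 (by omega)
  have hdt : 1 ≤ d * b := Nat.one_le_iff_ne_zero.2 (by positivity)
  have hℓ2 : 2 ≤ 2 * d * b := by
    have : 2 * d * b = 2 * (d * b) := by ring
    omega
  -- encoding of the variables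
  have hcard1 : Q * m' * (2 * d * b) ≤ n := by
    refine le_trans ?_ hQn
    exact Nat.mul_le_mul_left _ (by omega)
  obtain ⟨e⟩ : Nonempty ((Fin (Q * m') × Fin (2 * d * b)) ↪ Fin n) := by
    apply Function.Embedding.nonempty_of_card_le
    rw [Fintype.card_prod, Fintype.card_fin, Fintype.card_fin, Fintype.card_fin]
    exact hcard1
  obtain ⟨dec⟩ : Nonempty ((Fin (2 * d * b) → Bool) ≃ Fin (2 ^ (2 * d * b))) :=
    ⟨Fintype.equivFinOfCardEq (by simp)⟩
  have hn0 : 0 < n := by omega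
  have hB1 : 2 ≤ (2 * Q ^ 2 + 14 + 1) * (2 * d * b) := by
    calc 2 ≤ 2 * d * b := hℓ2
      _ = 1 * (2 * d * b) := (one_mul _).symm
      _ ≤ _ := Nat.mul_le_mul_right _ (by omega)
  -- encoding of the clauses
  have hcard2 : Q * m' * (2 ^ (2 * d * b)) ^ (2 * Q ^ 2 + 14 + 1) + n ≤ M := by
    refine le_trans ?_ hM
    have h1 : (2 ^ (2 * d * b)) ^ (2 * Q ^ 2 + 14 + 1) ≤ 2 ^ w := by
      rw [← pow_mul]
      apply Nat.pow_le_pow_right (by norm_num)
      rw [mul_comm]; omega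
    have h2 : 2 * (Q * m') ≤ n := by
      refine le_trans ?_ hcard1
      rw [mul_comm]
      exact Nat.mul_le_mul_left _ hℓ2
    have h3 : 2 ≤ 2 ^ w := by
      calc 2 = 2 ^ 1 := (pow_one 2).symm
        _ ≤ 2 ^ w := Nat.pow_le_pow_right (by norm_num) (by omega)
    have h4 : 2 * (Q * m' * (2 ^ (2 * d * b)) ^ (2 * Q ^ 2 + 14 + 1)) ≤ n * 2 ^ w := by
      calc 2 * (Q * m' * (2 ^ (2 * d * b)) ^ (2 * Q ^ 2 + 14 + 1)) =
          (2 * (Q * m')) * (2 ^ (2 * d * b)) ^ (2 * Q ^ 2 + 14 + 1) := by ring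
        _ ≤ n * 2 ^ w := Nat.mul_le_mul h2 h1
    have h5 : 2 * n ≤ n * 2 ^ w := by
      rw [mul_comm]; exact Nat.mul_le_mul_left _ h3
    omega
  obtain ⟨π, hπ⟩ : ∃ π : Fin M → (Fin (Q * m') × (Fin (2 * Q ^ 2 + 14 + 1) →
      Fin (2 ^ (2 * d * b)))) ⊕ Fin n, Function.Surjective π := by
    have : Nonempty ((Fin (Q * m') × (Fin (2 * Q ^ 2 + 14 + 1) →
      Fin (2 ^ (2 * d * b)))) ⊕ Fin n) := ⟨Sum.inr ⟨0, hn0⟩⟩
    obtain ⟨g⟩ : Nonempty (((Fin (Q * m') × (Fin (2 * Q ^ 2 + 14 + 1) →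
      Fin (2 ^ (2 * d * b)))) ⊕ Fin n) ↪ Fin M) := by
      apply Function.Embedding.nonempty_of_card_le
      rw [Fintype.card_sum, Fintype.card_prod, Fintype.card_fun, Fintype.card_fin,
        Fintype.card_fin, Fintype.card_fin, Fintype.card_fin, Fintype.card_fin]
      exact hcard2
    exact ⟨Function.invFun g, Function.invFun_surjective g.injective⟩
  have hwid : ∀ X, WidthLe (cnfOf s e dec ⟨0, hn0⟩ π X) w := fun X =>
    cnfOf_width (by omega) (by omega) X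
  have hlow := Mb3.csp_core Q d m' b k g (d * (E1 Q * m' + k)) hQ6 hd hm' rfl hA hB1' hB2 hgk
    s hs hsexp hssm
    (Game.arthur N p (fun i => .merlin g (fun z => .verify (K i z))))
    (S := S) ⟨hp0, hp1, fun i => ⟨le_refl _, fun z => hK i z⟩⟩
    (fun X => cnfOf s e dec ⟨0, hn0⟩ π X) (cnfOf_junta s e dec ⟨0, hn0⟩ π)
    (sep_pt (Nat.one_le_iff_ne_zero.2 (by positivity)) s p hp0 K
      (fun X => cnfOf s e dec ⟨0, hn0⟩ π X) (by
      intro X hX
      obtain ⟨z, hz⟩ := hsep _ (hwid X) (fun h => hX ((cnfOf_sat hπ X).1 h))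
      refine ⟨z, fun Y hY hY' => ?_⟩
      exact hz _ (hwid Y) (cnfOf_unique hπ Y hY) ((cnfOf_sat hπ Y).2 hY')))
  have hSR : ((2 ^ ((2 * Q - 12) * (d * b * m')) : ℕ) : ℝ) < S := by exact_mod_cast hlow
  refine lt_of_le_of_lt ?_ hSR
  push_cast
  rw [← Real.rpow_natCast]
  exact Real.rpow_le_rpow_of_exponent_le (by norm_num) hexp

end H592R3
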