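import Mathlib
import Pool.Agent.H592R5.PrivDefs
import Pool.Agent.H592R5.Sep
import Pool.Agent.H592R5.Chk

/-!
Interactive proofs with private coins for the unsatisfiability of CNF formulas.
-/

set_option linter.unusedSectionVars false

namespace H592R3

open Finset DomAC0 H568R2 SmallDepth

section Priv
variable {J : Type} {k a b : ℕ}

/-- The nodes that the prover's claims are about. -/
def outs (V : PrivateProof J k a b) (e2 : Option (Fin k × Fin a) ≃ Fin (k * a + 1)) (ω : V.Ω)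
    (r : Fin k → Fin b → Bool) (i : Fin (k * a + 1)) : J ⊕ Fin (V.circ ω r).size :=
  match e2.symm i with
  | none => (V.circ ω r).output
  | some ti => V.node ω r ti.1 ti.2

/-- The claimed values. -/
def vals (e2 : Option (Fin k × Fin a) ≃ Fin (k * a + 1)) (m : Fin k → Fin a → Bool)
    (i : Fin (k * a + 1)) : Bool :=
  match e2.symm i with
  | none => true
  | some ti => m ti.1 ti.2

lemma outs_eval (V : PrivateProof J k a b) (e2 : Option (Fin k × Fin a) ≃ Fin (k * a + 1))
    (ω : V.Ω) (r : Fin k → Fin b → Bool) (m : Fin k → Fin a → Bool) (x : J → Bool) :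
    (mchk (V.circ ω r) (outs V e2 ω r) (vals e2 m)).eval x = true ↔
      V.msg x ω r = m ∧ (V.circ ω r).eval x = true := by
  rw [mchk_eval]
  constructor
  · intro h
    constructor
    · funext t i
      have h1 := h (e2 (some (t, i)))
      unfold outs vals at h1
      rw [Equiv.symm_apply_apply] at h1
      exact h1
    · have h1 := h (e2 none)
      unfold outs vals at h1
      rw [Equiv.symm_apply_apply] at h1
      exact h1
  · rintro ⟨h1, h2⟩ i
    unfold outs vals
    cases e2.symm i with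
    | none => exact h2
    | some ti =>
      rw [← h1]
      rfl

lemma outs_depth (V : PrivateProof J k a b) (e2 : Option (Fin k × Fin a) ≃ Fin (k * a + 1))
    {d S : ℕ} (hV : V.Bounded d S) (ω : V.Ω) (r : Fin k → Fin b → Bool)
    (y : Fin (k * a + 1) → Bool) : (mchk (V.circ ω r) (outs V e2 ω r) y).depth ≤ d + 2 := by
  apply mchk_depth
  intro i
  unfold outs
  cases e2.symm i with
  | none => exact (hV ω r).2.1
  | some ti => exact (hV ω r).2.2 _ _

end Priv

/-- The circuit that checks a transcript. -/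
noncomputable def chkOf {J : Type} {k a b : ℕ} (V : PrivateProof J k a b)
    (e2 : Option (Fin k × Fin a) ≃ Fin (k * a + 1)) (ω : V.Ω)
    (t : (Fin k → Fin a → Bool) × (Fin k → Fin b → Bool)) : Circuit J :=
  mchk (V.circ ω t.2) (outs V e2 ω t.2) (vals e2 t.1)

/-- The lower bound for interactive proofs with private coins (with the cost of the check). -/
theorem priv_aux (ε : ℝ) (hε : 0 < ε) : ∃ C : ℝ, 0 < C ∧ ∀ n d k a b w M S : ℕ, 2 ≤ n → 1 ≤ d →
    C * (d * Real.log (n + (k * a + k * b : ℕ))) ≤ w → w ≤ n → n * 2 ^ w ≤ M →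
    ∀ (V : PrivateProof (Fin M × Fin n × Bool) k a b)
      (cls : Set (PrivateProof.Strategy k a b)) (θ : ℝ), V.Bounded d S →
    (∀ x : Fin M × Fin n × Bool → Bool, WidthLe x w → ¬ (∃ α, Models x α) →
      ∃ P ∈ cls, θ + 1 / 3 ≤ V.acc x P) →
    (∀ x : Fin M × Fin n × Bool → Bool, WidthLe x w →
      (∀ α β, Models x α → Models x β → α = β) → (∃ α, Models x α) →
      ∀ P ∈ cls, V.acc x P ≤ θ) →
    (2 : ℝ) ^ ((1 - ε) * n) < (S + k * a + 2 : ℕ) := by
  classical
  obtain ⟨C, hC, hlow⟩ := cnf_sep ε hε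
  refine ⟨3 * C, by positivity, ?_⟩
  intro n d k a b w M S hn hd hw hwn hM V cls θ hV hyes hno
  let _ := V.fin
  obtain ⟨e2⟩ : Nonempty (Option (Fin k × Fin a) ≃ Fin (k * a + 1)) :=
    ⟨Fintype.equivFinOfCardEq (by simp)⟩
  obtain ⟨e1⟩ : Nonempty (((Fin k → Fin a → Bool) × (Fin k → Fin b → Bool)) ≃
      Fin (2 ^ (k * a + k * b))) :=
    ⟨Fintype.equivFinOfCardEq (by
      rw [Fintype.card_prod, Fintype.card_fun, Fintype.card_fun, Fintype.card_fun,
        Fintype.card_fun, Fintype.card_fin, Fintype.card_fin, Fintype.card_fin,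
        Fintype.card_bool, ← pow_mul, ← pow_mul, ← pow_add, mul_comm a k, mul_comm b k])⟩
  obtain ⟨eq⟩ : Nonempty (V.Ω ≃ Fin (Fintype.card V.Ω)) := ⟨Fintype.equivFin V.Ω⟩
  have hp1 : ∑ i, V.prob (eq.symm i) = 1 := by
    rw [← V.total]
    exact Equiv.sum_comp eq.symm V.prob
  refine hlow n (d + 2) (k * a + k * b) w M (S + k * a + 2) hn (by omega) ?_ hwn hM
    (Fintype.card V.Ω) (fun i => V.prob (eq.symm i))
    (fun i z => chkOf V e2 (eq.symm i) (e1.symm z))
    (fun i => V.nonneg _) hp1 (fun i z => ⟨outs_depth V e2 hV _ _ _, ?_⟩) ?_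
  · have h1 : 0 ≤ Real.log (n + (k * a + k * b : ℕ)) := by
      apply Real.log_nonneg
      have : (2 : ℝ) ≤ n := by exact_mod_cast hn
      have h2 : (0 : ℝ) ≤ ((k * a + k * b : ℕ) : ℝ) := Nat.cast_nonneg _
      linarith
    have h2 : ((d + 2 : ℕ) : ℝ) ≤ 3 * d := by
      have : d + 2 ≤ 3 * d := by omega
      exact_mod_cast this
    calc C * (((d + 2 : ℕ) : ℝ) * Real.log (n + (k * a + k * b : ℕ))) ≤
        C * ((3 * d) * Real.log (n + (k * a + k * b : ℕ))) := by gcongr
      _ = 3 * C * (d * Real.log (n + (k * a + k * b : ℕ))) := by ring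
      _ ≤ w := hw
  · have h1 := (hV (eq.symm i) (e1.symm z).2).1
    show (V.circ (eq.symm i) (e1.symm z).2).size + (k * a + 1) + 1 ≤ S + k * a + 2
    omega
  · intro x hx hxs
    obtain ⟨P, hPP, hP⟩ := hyes x hx hxs
    -- the transcript on x
    obtain ⟨R, hR⟩ : ∃ R : V.Ω → Fin k → Fin b → Bool, ∀ ω,
        (∃ r, V.Answers x P ω r ∧ (V.circ ω r).eval x = true) →
        V.Answers x P ω (R ω) ∧ (V.circ ω (R ω)).eval x = true := by
      have h0 : ∀ ω, ∃ r : Fin k → Fin b → Bool,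
          (∃ r, V.Answers x P ω r ∧ (V.circ ω r).eval x = true) →
          V.Answers x P ω r ∧ (V.circ ω r).eval x = true := by
        intro ω
        by_cases h : ∃ r, V.Answers x P ω r ∧ (V.circ ω r).eval x = true
        · obtain ⟨r, hr⟩ := h
          exact ⟨r, fun _ => hr⟩
        · exact ⟨fun _ _ => false, fun h' => absurd h' h⟩
      choose R hR using h0
      exact ⟨R, hR⟩
    refine ⟨fun i => e1 (V.msg x (eq.symm i) (R (eq.symm i)), R (eq.symm i)), ?_⟩
    intro y hy hy1 hy2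
    have hno' := hno y hy hy1 hy2 P hPP
    simp only [Equiv.symm_apply_apply]
    rw [Equiv.sum_comp eq.symm (fun ω => V.prob ω *
      (if (chkOf V e2 ω (V.msg x ω (R ω), R ω)).eval x ≠
        (chkOf V e2 ω (V.msg x ω (R ω), R ω)).eval y then (1 : ℝ) else 0))]
    unfold PrivateProof.acc at hP hno'
    have hle : ∑ ω, (if ∃ r, V.Answers x P ω r ∧ (V.circ ω r).eval x = true then V.prob ω else 0)
        ≤ ∑ ω, ((if ∃ r, V.Answers y P ω r ∧ (V.circ ω r).eval y = true then V.prob ω else 0) +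
          V.prob ω * (if (chkOf V e2 ω (V.msg x ω (R ω), R ω)).eval x ≠ (chkOf V e2 ω (V.msg x ω (R ω), R ω)).eval y then (1 : ℝ) else 0)) := by
      refine Finset.sum_le_sum fun ω _ => ?_
      have hω := V.nonneg ω
      by_cases h1 : ∃ r, V.Answers x P ω r ∧ (V.circ ω r).eval x = true
      · obtain ⟨hA, hE⟩ := hR ω h1
        rw [if_pos h1]
        have hx1 : (chkOf V e2 ω (V.msg x ω (R ω), R ω)).eval x = true :=
          (outs_eval V e2 ω (R ω) _ x).2 ⟨rfl, hE⟩
        by_cases h2 : (chkOf V e2 ω (V.msg x ω (R ω), R ω)).eval y = true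
        · obtain ⟨hm, hE'⟩ := (outs_eval V e2 ω (R ω) _ y).1 h2
          have h3 : ∃ r, V.Answers y P ω r ∧ (V.circ ω r).eval y = true := by
            refine ⟨R ω, fun t => ?_, hE'⟩
            rw [hm]
            exact hA t
          rw [if_pos h3]
          have : 0 ≤ V.prob ω * (if (chkOf V e2 ω (V.msg x ω (R ω), R ω)).eval x ≠ (chkOf V e2 ω (V.msg x ω (R ω), R ω)).eval y then (1 : ℝ) else 0) := by
            apply mul_nonneg hω
            split_ifs <;> norm_num
          linarith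
        · have h3 : (chkOf V e2 ω (V.msg x ω (R ω), R ω)).eval x ≠ (chkOf V e2 ω (V.msg x ω (R ω), R ω)).eval y := by
            rw [hx1]
            exact fun h => h2 h.symm
          rw [if_pos h3, mul_one]
          split_ifs <;> linarith
      · rw [if_neg h1]
        apply add_nonneg
        · split_ifs <;> linarith
        · apply mul_nonneg hω
          split_ifs <;> norm_num
    rw [Finset.sum_add_distrib] at hle
    linarith

/-- The lower bound for interactive proofs with private coins and any class of strategies. -/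
theorem priv_class (ε : ℝ) (hε : 0 < ε) : ∃ C : ℝ, 0 < C ∧ ∀ n d k a b w M S : ℕ, 2 ≤ n →
    1 ≤ d → C * (d * Real.log (n + k * (a + b))) ≤ w → w ≤ n → n * 2 ^ w ≤ M →
    ∀ (V : PrivateProof (Fin M × Fin n × Bool) k a b)
      (cls : Set (PrivateProof.Strategy k a b)) (θ : ℝ), V.Bounded d S →
    (∀ x : Fin M × Fin n × Bool → Bool, WidthLe x w → ¬ (∃ α, Models x α) →
      ∃ P ∈ cls, θ + 1 / 3 ≤ V.acc x P) →
    (∀ x : Fin M × Fin n × Bool → Bool, WidthLe x w →
      (∀ α β, Models x α → Models x β → α = β) → (∃ α, Models x α) →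
      ∀ P ∈ cls, V.acc x P ≤ θ) →
    (2 : ℝ) ^ ((1 - ε) * n) < S := by
  obtain ⟨ε', hε'⟩ : ∃ ε' : ℝ, ε' = min (ε / 2) (1 / 4) := ⟨_, rfl⟩
  have hε'0 : 0 < ε' := by rw [hε']; exact lt_min (by linarith) (by norm_num)
  have hε'1 : ε' ≤ ε / 2 := by rw [hε']; exact min_le_left _ _
  have hε'2 : ε' ≤ 1 / 4 := by rw [hε']; exact min_le_right _ _
  obtain ⟨C', hC', hlow⟩ := priv_aux ε' hε'0
  obtain ⟨C, hC⟩ : ∃ C : ℝ, C = C' + 8 + 4 / ε := ⟨_, rfl⟩
  have h4ε : 0 < 4 / ε := by positivity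
  have hC0 : 0 < C := by rw [hC]; positivity
  refine ⟨C, hC0, ?_⟩
  intro n d k a b w M S hn hd hw hwn hM V cls θ hV hyes hno
  have hnR : (2 : ℝ) ≤ n := by exact_mod_cast hn
  have hdR : (1 : ℝ) ≤ d := by exact_mod_cast hd
  have hwnR : (w : ℝ) ≤ n := by exact_mod_cast hwn
  obtain ⟨G, hG⟩ : ∃ G : ℝ, G = n + k * (a + b) := ⟨_, rfl⟩
  rw [← hG] at hw
  have hG2 : 2 ≤ G := by
    rw [hG]
    have : (0 : ℝ) ≤ (k : ℝ) * (a + b) := by positivity
    linarith
  have hlogG : Real.log 2 ≤ Real.log G := Real.log_le_log (by norm_num) hG2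
  have hlog2 := Real.log_two_gt_d9
  have hlog2' := Real.log_two_lt_d9
  have hlogG0 : 0 ≤ Real.log G := by linarith
  have hCC' : C' ≤ C := by rw [hC]; linarith
  have hmain := hlow n d k a b w M S hn hd (by
    have e1 : (n : ℝ) + ((k * a + k * b : ℕ) : ℝ) = G := by rw [hG]; push_cast; ring
    rw [e1]
    refine le_trans ?_ hw
    gcongr) hwn hM V cls θ hV hyes hno
  -- the bounds on the parameters
  have hCG : C * Real.log G ≤ n := by
    refine le_trans ?_ (hw.trans hwnR)
    have : Real.log G ≤ d * Real.log G := by nlinarith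
    gcongr
  have hGn : G ≤ 2 ^ (3 / 4 * (n : ℝ) - 1) := by
    have h1 : Real.log G ≤ n / 8 := by
      rw [le_div_iff₀ (by norm_num)]
      have : 8 * Real.log G ≤ C * Real.log G := by
        apply mul_le_mul_of_nonneg_right _ hlogG0
        rw [hC]; linarith
      linarith
    have h2 : n / 8 ≤ Real.log 2 * (3 / 4 * (n : ℝ) - 1) := by nlinarith
    rw [Real.rpow_def_of_pos (by norm_num), ← Real.log_le_iff_le_exp (by linarith)]
    linarith
  have hεn : 2 ≤ ε * n := by
    have h1 : 4 / ε ≤ C := by rw [hC]; linarith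
    have h2 : 4 / ε * Real.log 2 ≤ n := by
      calc 4 / ε * Real.log 2 ≤ C * Real.log G := by gcongr
        _ ≤ n := hCG
    have h3 : 4 * Real.log 2 ≤ ε * n := by
      calc 4 * Real.log 2 = ε * (4 / ε * Real.log 2) := by field_simp
        _ ≤ ε * n := by gcongr
    linarith
  have hka : ((k * a + 2 : ℕ) : ℝ) ≤ G := by
    rw [hG]
    push_cast
    have : (0 : ℝ) ≤ (k : ℝ) * b := by positivity
    nlinarith
  have h1 : (2 : ℝ) ^ (3 / 4 * (n : ℝ) - 1) ≤ 2 ^ ((1 - ε') * n - 1) := by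
    apply Real.rpow_le_rpow_of_exponent_le (by norm_num)
    nlinarith
  have h2 : (2 : ℝ) ^ ((1 - ε) * n) ≤ 2 ^ ((1 - ε') * n - 1) := by
    apply Real.rpow_le_rpow_of_exponent_le (by norm_num)
    nlinarith
  have h3 : (2 : ℝ) ^ ((1 - ε') * n) = 2 ^ ((1 - ε') * n - 1) + 2 ^ ((1 - ε') * n - 1) := by
    rw [Real.rpow_sub (by norm_num), Real.rpow_one]; ring
  have h4 : ((S + k * a + 2 : ℕ) : ℝ) = S + ((k * a + 2 : ℕ) : ℝ) := by push_cast; ring
  rw [h4] at hmain
  linarith

/-- The lower bound for interactive proofs with private coins. -/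
theorem priv_lower (ε : ℝ) (hε : 0 < ε) : ∃ C : ℝ, 0 < C ∧ ∀ n d k a b w M S : ℕ, 2 ≤ n →
    1 ≤ d → C * (d * Real.log (n + k * (a + b))) ≤ w → w ≤ n → n * 2 ^ w ≤ M →
    ∀ (V : PrivateProof (Fin M × Fin n × Bool) k a b) (θ : ℝ), V.Bounded d S →
    (∀ x : Fin M × Fin n × Bool → Bool, WidthLe x w → ¬ (∃ α, Models x α) →
      ∃ P, θ + 1 / 3 ≤ V.acc x P) →
    (∀ x : Fin M × Fin n × Bool → Bool, WidthLe x w →
      (∀ α β, Models x α → Models x β → α = β) → (∃ α, Models x α) →
      ∀ P, V.acc x P ≤ θ) →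
    (2 : ℝ) ^ ((1 - ε) * n) < S := by
  obtain ⟨C, hC, h⟩ := priv_class ε hε
  refine ⟨C, hC, ?_⟩
  intro n d k a b w M S hn hd hw hwn hM V θ hV hyes hno
  refine h n d k a b w M S hn hd hw hwn hM V Set.univ θ hV ?_ ?_
  · intro x hx hxs
    obtain ⟨P, hP⟩ := hyes x hx hxs
    exact ⟨P, Set.mem_univ _, hP⟩
  · intro x hx hxu hxs P _
    exact hno x hx hxu hxs P

end H592R3
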