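import Mathlib
import Pool.Agent.H592R5.PcpDefs
import Pool.Agent.H592R5.Priv

/-!
Probabilistically checkable proofs of tautologies.
-/

set_option linter.unusedSectionVars false

namespace H592R3

open Finset DomAC0 H568R2 SmallDepth

section Dnf
variable {n M : ℕ}

lemma not_dnfTrue (u : Fin M × Fin n × Bool → Bool) (α : Fin n → Bool) :
    ¬ DnfTrue u α ↔ Models u (fun v => !α v) := by
  unfold DnfTrue Models
  push Not
  refine forall_congr' fun c => ?_
  constructor
  · rintro ⟨v, b, h1, h2⟩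
    refine ⟨v, ?_⟩
    have : (!α v) = b := by
      cases h : α v <;> cases b <;> simp_all
    rw [this]
    exact h1
  · rintro ⟨v, h⟩
    exact ⟨v, !α v, h, by cases α v <;> simp⟩

lemma taut_iff (u : Fin M × Fin n × Bool → Bool) : Taut u ↔ ¬ ∃ α, Models u α := by
  unfold Taut
  constructor
  · rintro h ⟨α, hα⟩
    have h1 := h (fun v => !α v)
    have h2 := (not_dnfTrue u (fun v => !α v)).2 (by simpa using hα)
    exact h2 h1
  · intro h α
    by_contra h1
    exact h ⟨_, (not_dnfTrue u α).1 h1⟩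

lemma oneFalsifying_of {u : Fin M × Fin n × Bool → Bool}
    (h : ∀ α β, Models u α → Models u β → α = β) : OneFalsifying u := by
  intro α β hα hβ
  have h1 := h _ _ ((not_dnfTrue u α).1 hα) ((not_dnfTrue u β).1 hβ)
  funext v
  have h2 := congrFun h1 v
  simpa using h2

end Dnf

/-- The verifier as a verifier of an interactive proof. -/
noncomputable def toPriv {J : Type} {k q : ℕ} (V : PcpVerifier J k q) : PrivateProof J k q 1 where
  Ω := V.Ω
  fin := V.fin
  prob := V.prob
  nonneg := V.nonneg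
  total := V.total
  circ := fun ω r => V.circ ω (fun t => r t 0)
  node := fun ω r => V.addr ω (fun t => r t 0)
  causal := by
    intro ω r r' t i x h
    exact V.adaptive ω _ _ t i x (fun s hs => by rw [h s hs])

/-- The strategy given by a proof. -/
def ofProof {k q : ℕ} (π : (Fin q → Bool) → Bool) : PrivateProof.Strategy k q 1 :=
  fun t m _ => π (m t)

open Classical in
lemma toPriv_acc {J : Type} {k q : ℕ} (V : PcpVerifier J k q) (x : J → Bool)
    (π : (Fin q → Bool) → Bool) : (toPriv V).acc x (ofProof π) = V.acc x π := by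
  unfold PrivateProof.acc PcpVerifier.acc
  refine Finset.sum_congr rfl fun ω _ => ?_
  refine if_congr ?_ rfl rfl
  have hseen : ∀ (r : Fin k → Fin 1 → Bool) (t : Fin k),
      PrivateProof.seen ((toPriv V).msg x ω r) t t = V.address x ω (fun t => r t 0) t := by
    intro r t
    funext i
    unfold PrivateProof.seen
    rw [if_pos (le_refl t)]
    rfl
  constructor
  · rintro ⟨r, hr, he⟩
    refine ⟨fun t => r t 0, fun t => ?_, he⟩
    have h1 := congrFun (hr t) 0
    show r t 0 = _
    rw [h1]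
    show π (PrivateProof.seen ((toPriv V).msg x ω r) t t) = _
    rw [hseen]
  · rintro ⟨r, hr, he⟩
    refine ⟨fun t _ => r t, fun t => ?_, he⟩
    funext i
    show r t = π (PrivateProof.seen ((toPriv V).msg x ω (fun t _ => r t)) t t)
    rw [hseen]
    exact hr t

/-- The lower bound for probabilistically checkable proofs of tautologies. -/
theorem pcp_lower (ε : ℝ) (hε : 0 < ε) : ∃ C : ℝ, 0 < C ∧ ∀ n d k q w M S : ℕ, 2 ≤ n →
    1 ≤ d → C * (d * Real.log (n + k * (q + 1))) ≤ w → w ≤ n → n * 2 ^ w ≤ M →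
    ∀ (V : PcpVerifier (Fin M × Fin n × Bool) k q) (θ : ℝ), V.Bounded d S →
    (∀ u : Fin M × Fin n × Bool → Bool, WidthLe u w → Taut u → ∃ π, θ + 1 / 3 ≤ V.acc u π) →
    (∀ u : Fin M × Fin n × Bool → Bool, WidthLe u w → OneFalsifying u → ¬ Taut u →
      ∀ π, V.acc u π ≤ θ) →
    (2 : ℝ) ^ ((1 - ε) * n) < S := by
  obtain ⟨C, hC, h⟩ := priv_class ε hε
  refine ⟨C, hC, ?_⟩
  intro n d k q w M S hn hd hw hwn hM V θ hV hyes hno
  refine h n d k q 1 w M S hn hd (by exact_mod_cast hw) hwn hM (toPriv V)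
    {P | ∃ π, P = ofProof π} θ (fun ω r => hV ω (fun t => r t 0)) ?_ ?_
  · intro x hx hxs
    obtain ⟨π, hπ⟩ := hyes x hx ((taut_iff x).2 hxs)
    exact ⟨ofProof π, ⟨π, rfl⟩, by rw [toPriv_acc]; exact hπ⟩
  · rintro x hx hxu hxs P ⟨π, rfl⟩
    rw [toPriv_acc]
    exact hno x hx (oneFalsifying_of hxu) (fun ht => (taut_iff x).1 ht hxs) π

end H592R3
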